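import Mathlib
import Pool.Agent.MP_dd6dde_co.Cq.Uniq
import Pool.Agent.MP_dd6dde_co.Cq.Low

set_option autoImplicit false

namespace Pool.Agent.Results.MP_dd6dde_co.CliqueThreshold

open Pool.Agent.MP_dd6dde_co

/-- The clique number needed for `h_G` to have more than one zero is of order exactly
`n ^ (1 / 4) * (log n) ^ (3 / 8)`, with an explicit uniqueness range for every order `n`. -/
theorem result :
    (∀ (n : ℕ) (V : Type) [Fintype V] (G : SimpleGraph V), Fintype.card V = n → G.Connected →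
      G ≠ ⊤ →
      (G.cliqueNum : ℝ) ≤ 1 + max 2
        (max 1 (Real.log n ^ (3 / 8 : ℝ) / 1000) * (n : ℝ) ^ (1 / 4 : ℝ)) →
      ∃! α : ℝ, hG G α = 0) ∧
    ∃ n₀ : ℕ, ∀ n : ℕ, n₀ ≤ n →
      ∃ (V : Type) (_ : Fintype V) (G : SimpleGraph V), Fintype.card V = n ∧ G.Connected ∧ G ≠ ⊤ ∧
        (∃ k : ℕ, G.Colorable k ∧
          (k : ℝ) ≤ 17000 * Real.log n ^ (3 / 8 : ℝ) * (n : ℝ) ^ (1 / 4 : ℝ)) ∧
        ∃ a b c : ℝ, a < b ∧ b < c ∧ hG G a = 0 ∧ hG G b = 0 ∧ hG G c = 0 := by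
  refine ⟨fun n V _ G hV hc ht hm => Cq.unique_clique hc ht hV hm,
    ⌈Real.exp (100 ^ 4)⌉₊, fun n hn => ?_⟩
  obtain ⟨l, σ, hl, hσ0, hσ, h2, e⟩ := Thr.params hn
  obtain ⟨V, i, G, h3, h4, h5, ⟨k, h6, h7⟩, h8⟩ := Cq.three_zeros_col hl hσ0 hσ h2
  refine ⟨V, i, G, h3, h4, h5, ⟨k, h6, ?_⟩, h8⟩
  have h0 := Real.log_natCast_nonneg n
  rw [← Cq.rho_sq hσ0 h2 h0 e, ← mul_pow, ← mul_assoc] at h7
  exact (pow_le_pow_iff_left₀ (by positivity) (by positivity) two_ne_zero).1 h7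

end Pool.Agent.Results.MP_dd6dde_co.CliqueThreshold
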