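import Mathlib.Analysis.SpecialFunctions.Pow.Asymptotics
import Pool.Agent.MP_dd6dde_co.Build
import Pool.Agent.MP_dd6dde_co.Low
import Pool.Agent.MP_dd6dde_co.Up

/-! The zero of `h_G` is unique for all connected graphs of diameter `D ≥ 2` exactly when
`D ≤ 4`. -/

namespace Pool.Agent.Results.MP_dd6dde_co.DiameterFour

open Finset Real Filter Pool.Agent.MP_dd6dde_co
open scoped Classical

theorem ev {α K c : ℝ} (h : α < 1) (hK : 0 < K) (hc : 0 < c) (a b : ℝ) :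
    ∀ᶠ x : ℕ in atTop, a * (K * x) ^ α + b < c * x := by
  have t := (((tendsto_rpow_neg_atTop (sub_pos.2 h)).const_mul (a * K ^ α)).add
    (tendsto_inv_atTop_zero.const_mul b)).comp tendsto_natCast_atTop_atTop
  rw [mul_zero, mul_zero, add_zero] at t
  filter_upwards [t.eventually (gt_mem_nhds hc), eventually_gt_atTop 0] with x h1 h2
  have x0 : (0 : ℝ) < x := Nat.cast_pos.2 h2
  refine lt_of_eq_of_lt ?_ (mul_lt_mul_of_pos_right h1 x0)
  simp only [Function.comp, neg_sub]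
  rw [mul_rpow hK.le x0.le, rpow_sub_one x0.ne']
  field_simp

theorem zero {V : Type} [Fintype V] {G : SimpleGraph V} (hc : G.Connected) {a b : ℝ} (h : a ≤ b)
    (ha : hG G a < 0) (hb : 0 < hG G b) : ∃ t ∈ Set.Ioo a b, hG G t = 0 :=
  intermediate_value_Ioo h (h_cont hc).continuousOn ⟨ha, hb⟩

theorem five {D : ℕ} (hD : 5 ≤ D) : ∃ (n : ℕ) (G : SimpleGraph (Fin n)) (β : ℝ), G.Connected ∧
    G.diam = D ∧ 3 / 4 ≤ β ∧ β < 1 ∧ 0 < hG G (3 / 4) ∧ hG G β < 0 := by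
  have D5 : (5 : ℝ) ≤ D := by exact_mod_cast hD
  have p : ∀ {x y : ℝ}, 0 ≤ x → 0 ≤ y → y ^ 4 ≤ x ^ 3 → y ≤ x ^ (3 / 4 : ℝ) := fun {x y} a b c => by
    refine le_of_pow_le_pow_left₀ (n := 4) (by norm_num) (by positivity) (c.trans_eq ?_)
    rw [← rpow_natCast, ← rpow_natCast, ← rpow_mul a]
    norm_num
  obtain ⟨t, t0, t1⟩ : ∃ t : ℝ, 0 < t ∧ t ^ 4 = D :=
    ⟨D ^ ((4 : ℕ)⁻¹ : ℝ), by positivity, rpow_inv_natCast_pow (by linarith) (by norm_num)⟩
  have t2 : (D : ℝ) ^ (3 / 4 : ℝ) = t ^ 3 := by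
    rw [← t1, ← rpow_natCast, ← rpow_natCast, ← rpow_mul t0.le]
    norm_num
  have t3 : 1.495 ≤ t := le_of_pow_le_pow_left₀ (n := 4) (by norm_num) t0.le (by
    rw [t1]; exact le_trans (by norm_num) D5)
  have t4 : 1 ≤ t ^ 3 := one_le_pow₀ (by linarith)
  have w : (1.68 : ℝ) ≤ 2 ^ (3 / 4 : ℝ) := p (by norm_num) (by norm_num) (by norm_num)
  obtain ⟨β, b1, b2, b3⟩ : ∃ β : ℝ, 3 / 4 ≤ β ∧ β < 1 ∧ (D : ℝ) ^ β = 200 / 201 * D := by
    refine ⟨logb D (200 / 201 * D), ?_, ?_, rpow_logb (by linarith) (by linarith) (by linarith)⟩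
    · rw [le_logb_iff_rpow_le (by linarith) (by linarith), t2, ← t1]
      nlinarith
    · rw [logb_lt_iff_lt_rpow (by linarith) (by linarith), rpow_one]
      linarith
  have K : (0 : ℝ) < 202 * D := by linarith
  obtain ⟨M, m1, m2, m3⟩ := ((ev (α := 3 / 4) (by norm_num) K one_half_pos 1 (D * D + 1)).and
    ((ev b2 K one_pos 1 1).and (eventually_ge_atTop 1))).exists
  obtain ⟨R, hR⟩ : ∃ R, R = D + (101 * M + 50 * D * M * 2) := ⟨_, rfl⟩
  have M1 : (1 : ℝ) ≤ M := by exact_mod_cast m3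
  have R0 : (0 : ℝ) < R := Nat.cast_pos.2 (by omega)
  have R1 : (R : ℝ) ≤ 202 * D * M := by
    rw [hR]
    push_cast
    nlinarith
  obtain ⟨n, n1, n2, n3⟩ := ((ev (α := 3 / 4) (by norm_num) R0 two_pos (R ^ 2) (2 * R)).and
    ((ev b2 R0 two_pos (R ^ 2) (2 * R)).and (eventually_gt_atTop R))).exists
  obtain ⟨G, g1, g2, g3⟩ := build (D := D) (R := R) (by omega)
    (fun b : Bool => if b then 101 * M else 50 * D * M) (fun b => if b then 1 else 2)
    (fun b => if b then D else 0) (by simp) (by simp; omega) (by simp [hR]) n3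
  have q : (0 : ℝ) < n - R := sub_pos.2 (Nat.cast_lt.2 n3)
  have D0 : D ≠ 0 := by omega
  refine ⟨n, G, β, g1, g2, b1, b2, ?_, ?_⟩
  · have key := (abs_le.1 (g3 (3 / 4) (by norm_num))).1
    have y : ∑ j : Fin D, ((j + 1 : ℕ) : ℝ) ^ (3 / 4 : ℝ) ≤ D * D := by
      refine (sum_le_card_nsmul _ _ (D : ℝ) fun j _ => ?_).trans_eq (by simp)
      refine (rpow_le_rpow_of_exponent_le (Nat.one_le_cast.2 (by omega)) (show _ ≤ (1 : ℝ) by
        norm_num)).trans ?_
      rw [rpow_one]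
      exact Nat.cast_le.2 j.2
    have r := rpow_le_rpow R0.le R1 (show (0 : ℝ) ≤ 3 / 4 by norm_num)
    simp only [Fintype.sum_bool, if_true, D0, if_false, Bool.false_eq_true, t2] at key
    push_cast at key y
    have a : 1 / 2 ≤ 100 * D * ((2 : ℝ) ^ (3 / 4 : ℝ) - 1) - 101 * t ^ 3 := by
      rw [← t1]
      nlinarith [mul_le_mul_of_nonneg_left w (pow_pos t0 4).le]
    have b := mul_le_mul_of_nonneg_left a (Nat.cast_nonneg M)
    rw [mul_comm (n : ℝ)] at key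
    nlinarith
  · have key := (abs_le.1 (g3 β (by linarith))).2
    have y : 0 ≤ ∑ j : Fin D, ((j + 1 : ℕ) : ℝ) ^ β := sum_nonneg fun j _ => by positivity
    have r := rpow_le_rpow R0.le R1 (show (0 : ℝ) ≤ β by linarith)
    simp only [Fintype.sum_bool, if_true, D0, if_false, Bool.false_eq_true, b3] at key
    push_cast at key y
    have a := rpow_le_rpow_of_exponent_le (show (1 : ℝ) ≤ 2 by norm_num) b2.le
    rw [rpow_one] at a
    have b : 100 * D * ((2 : ℝ) ^ β - 1) - 101 * (200 / 201 * D) ≤ -1 := by nlinarith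
    have c := mul_le_mul_of_nonneg_left b (Nat.cast_nonneg M)
    rw [mul_comm (n : ℝ)] at key
    nlinarith

theorem result (D : ℕ) (hD : 2 ≤ D) :
    (∀ (n : ℕ) (G : SimpleGraph (Fin n)), G.Connected → G.diam = D → ∃! α : ℝ, hG G α = 0) ↔
      D ≤ 4 := by
  refine ⟨fun h => not_lt.1 fun u => ?_, fun h n G hc hd => ?_⟩
  · obtain ⟨n, G, β, g1, g2, b1, b2, b3, b4⟩ := five u
    have ht := (ne_top_iff g1).2 (g2 ▸ hD)
    obtain ⟨a, a1, a2⟩ := zero g1 (by norm_num) (h_neg g1 ht le_rfl) b3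
    obtain ⟨b, c1, c2⟩ := zero g1 (by linarith) b4 (h_pos g1 ht one_lt_two)
    have := (h n G g1 g2).unique a2 c2
    linarith [a1.2, c1.1]
  · have ht := (ne_top_iff hc).2 (hd ▸ hD)
    have l : ∀ x y, G.dist x y ≤ 4 := fun x y => (dist_diam hc x y).trans (hd ▸ h)
    obtain ⟨a, -, a2⟩ := zero hc (by norm_num) (h_neg hc ht le_rfl) (h_pos hc ht one_lt_two)
    refine ⟨a, a2, fun b e => ?_⟩
    rcases lt_trichotomy b a with s | s | s
    · exact absurd a2 (four_pos hc ht l s e).ne'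
    · exact s
    · exact absurd e (four_pos hc ht l s a2).ne'

end Pool.Agent.Results.MP_dd6dde_co.DiameterFour
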