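import Pool.Agent.MP_dd6dde_co.Build
import Pool.Agent.MP_dd6dde_co.Low
import Pool.Agent.MP_dd6dde_co.Up

/-! The largest number of real zeros of `h_G` over the connected graphs of diameter `D` has the
order `log D`. -/

namespace Pool.Agent.Results.MP_dd6dde_co.LogZeros

open Finset Real Pool.Agent.MP_dd6dde_co
open scoped Classical

theorem signs {k D n : ℕ} (hk : 36 ^ (3 * k + 3) ≤ D) (hn : D ^ 12 ≤ n) :
    ∃ G : SimpleGraph (Fin n), G.Connected ∧ G.diam = D ∧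
      ∀ (θ : ℝ) (i : ℕ), cos (k * θ) = (-1) ^ i → 0 < (-1) ^ i * hG G (ex θ) := by
  obtain ⟨I, _, e, s, he, hI, hs⟩ := cheb k
  obtain ⟨M, hM⟩ : ∃ M, M = D ^ 2 * 36 ^ (3 * k + 3) := ⟨_, rfl⟩
  obtain ⟨R, hR⟩ : ∃ R, R = D + M * Fintype.card I := ⟨_, rfl⟩
  have D2 : 2 ≤ D := le_trans (le_trans (by norm_num) (Nat.le_self_pow (by omega) 36)) hk
  have M1 : D ^ 2 ≤ M := hM ▸ Nat.le_mul_of_pos_right _ (by positivity)
  have M2 : D ≤ M := (Nat.le_self_pow (by omega) D).trans M1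
  have R1 : R ≤ M * (13 ^ k + 1) := by nlinarith [Nat.mul_le_mul_left M hI]
  have R2 : R ^ 3 ≤ n := by
    have a : 13 ^ k + 1 ≤ 36 ^ (3 * k + 3) := by
      have := Nat.pow_le_pow_left (show 13 ≤ 36 by norm_num) k
      have := Nat.pow_lt_pow_right (show 1 < 36 by norm_num) (show k < 3 * k + 3 by omega)
      omega
    have b : R ≤ D ^ 2 * D * D :=
      R1.trans (Nat.mul_le_mul (hM ▸ Nat.mul_le_mul_left _ hk) (a.trans hk))
    exact ((Nat.pow_le_pow_left b 3).trans_eq (by ring)).trans hn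
  have R3 : 2 * R ≤ n := le_trans (by nlinarith [Nat.mul_le_mul (show 2 ≤ R by omega) (le_refl R)]) R2
  have ms : ∀ i, (if s i then D ^ 2 * 36 ^ (k - e i) else M) *
      (if s i then 36 ^ (2 * k + 3 + e i) else 1) = M := fun i => by
    split_ifs
    · rw [mul_assoc, ← pow_add, show k - e i + (2 * k + 3 + e i) = 3 * k + 3 by
        have := he i; omega, hM]
    · exact mul_one _
  obtain ⟨G, g1, g2, g3⟩ := build (n := n) (R := R) D2
    (fun i => if s i then D ^ 2 * 36 ^ (k - e i) else M)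
    (fun i => if s i then 36 ^ (2 * k + 3 + e i) else 1)
    (fun i => if s i then 0 else 36 ^ (2 * k + 3 + e i)) (fun i h => if_neg fun v => h (if_pos v))
    (fun i => by
      split_ifs
      · omega
      · exact ⟨by simp, (Nat.pow_le_pow_right (by norm_num) (by have := he i; omega)).trans hk⟩)
    (by simp only [ms]; simp [hR, mul_comm]) (by omega)
  refine ⟨G, g1, g2, fun θ i hθ => ?_⟩
  have key := g3 _ (ex_mem θ).1
  have R0 : (2 : ℝ) ≤ R := by exact_mod_cast (by omega : 2 ≤ R)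
  have r2 : (R : ℝ) ^ 3 ≤ n := by exact_mod_cast R2
  have r3 : (2 : ℝ) * R ≤ n := by exact_mod_cast R3
  have D0 : (2 : ℝ) ≤ D := by exact_mod_cast D2
  have x1 : (R : ℝ) ^ ex θ ≤ R := rpow_le (by nlinarith) (by linarith) (ex_mem θ).1 (ex_mem θ).2
  have x2 : ((n * R : ℕ) : ℝ) ^ ex θ ≤ n / R := rpow_le (by
    rw [div_pow, le_div_iff₀ (by positivity)]
    push_cast
    nlinarith) ((one_le_div (by positivity)).2 (by linarith)) (ex_mem θ).1 (ex_mem θ).2
  have x3 := mul_le_mul_of_nonneg_left x2 (sq_nonneg (R : ℝ))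
  rw [show (R : ℝ) ^ 2 * (n / R) = R * n by field_simp, Nat.cast_mul] at x3
  have eΦ : ∑ a, (M : ℝ) * (if (if s a then 0 else 36 ^ (2 * k + 3 + e a)) = 0 then
      ((if s a then 36 ^ (2 * k + 3 + e a) else 1 : ℕ) : ℝ) ^ ex θ - 1 else
      -((if s a then 0 else 36 ^ (2 * k + 3 + e a) : ℕ) : ℝ) ^ ex θ) =
      M * ((5 + cos θ) ^ (2 * k + 3) * (-1) ^ i) - M * ∑ a, if s a then 1 else 0 := by
    rw [← hθ, ← hs θ, mul_sum, mul_sum, mul_sum, ← sum_sub_distrib]
    refine sum_congr rfl fun a _ => ?_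
    by_cases u : s a
    · simp only [u, if_true, ex_pow]
      ring
    · simp only [u, if_false, ex_pow, (pow_pos (show 0 < 36 by norm_num) _).ne']
      ring
  simp only [ms] at key
  rw [eΦ] at key
  have y1 : ∑ j : Fin D, ((j + 1 : ℕ) : ℝ) ^ ex θ ≤ M := by
    refine ((sum_le_card_nsmul _ _ (D : ℝ) fun j _ => rpow_le ?_ (by linarith) (ex_mem θ).1
      (ex_mem θ).2).trans_eq (by simp [sq])).trans (Nat.cast_le.2 M1)
    have : ((j + 1 : ℕ) : ℝ) ≤ D := Nat.cast_le.2 j.2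
    nlinarith
  have y0 : 0 ≤ ∑ j : Fin D, ((j + 1 : ℕ) : ℝ) ^ ex θ := sum_nonneg fun j _ => by positivity
  have y2 : (∑ a, if s a then (1 : ℝ) else 0) ≤ 16 ^ k := by
    refine (sum_le_card_nsmul _ _ 1 fun a _ => by split_ifs <;> simp).trans ?_
    rw [nsmul_eq_mul, mul_one, card_univ]
    exact_mod_cast hI.trans (Nat.pow_le_pow_left (by norm_num) k)
  have y3 : 0 ≤ ∑ a, if s a then (1 : ℝ) else 0 := sum_nonneg fun a _ => by split_ifs <;> simp
  have y4 : (R : ℝ) ≤ M * (16 ^ k + 1) := by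
    exact_mod_cast R1.trans (Nat.mul_le_mul_left _ (Nat.succ_le_succ
      (Nat.pow_le_pow_left (by norm_num) k)))
  have y5 : 64 * (16 : ℝ) ^ k ≤ (5 + cos θ) ^ (2 * k + 3) :=
    le_trans (by rw [pow_add, pow_mul]; norm_num [mul_comm]) (pow_le_pow_left₀ (a := 4)
      (by norm_num) (by linarith [neg_one_le_cos θ]) _)
  have y6 : (1 : ℝ) ≤ 16 ^ k := one_le_pow₀ (by norm_num)
  have y7 : (2 : ℝ) ≤ M := by exact_mod_cast D2.trans M2
  have a1 := mul_le_mul_of_nonneg_left y2 (Nat.cast_nonneg M)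
  have a2 := mul_le_mul_of_nonneg_left y5 (Nat.cast_nonneg M)
  have a3 := mul_le_mul_of_nonneg_left y6 (Nat.cast_nonneg M)
  have a4 := mul_nonneg (Nat.cast_nonneg M) y3
  generalize (M : ℝ) * ∑ a, (if s a then (1 : ℝ) else 0) = Y at *
  generalize ∑ j : Fin D, ((j + 1 : ℕ) : ℝ) ^ ex θ = Z at *
  have q : (0 : ℝ) < 2 * (n - R) := by linarith
  have b1 := mul_lt_mul_of_pos_left
    (show Y + Z + 2 * R < M * (5 + cos θ) ^ (2 * k + 3) by linarith) q
  have b2 := mul_nonneg q.le (add_nonneg a4 y0)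
  have b3 := mul_le_mul_of_nonneg_left x1 q.le
  have b4 := mul_le_mul_of_nonneg_left r3 (show (0 : ℝ) ≤ R by linarith)
  rw [abs_le] at key
  rcases neg_one_pow_eq_or ℝ i with c | c <;> rw [c] at key ⊢ <;> nlinarith [key.1, key.2]

theorem zeros {V : Type} [Fintype V] {G : SimpleGraph V} (h2 : G.Connected) {k : ℕ}
    (h4 : ∀ (θ : ℝ) (i : ℕ), cos (k * θ) = (-1) ^ i → 0 < (-1) ^ i * hG G (ex θ)) :
    ∃ s : Finset ℝ, s.card = k ∧ ∀ t ∈ s, hG G t = 0 := by
  rcases Nat.eq_zero_or_pos k with rfl | k0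
  · exact ⟨∅, rfl, by simp⟩
  have k1 : (0 : ℝ) < k := Nat.cast_pos.2 k0
  have c : Continuous fun θ => hG G (ex θ) := (h_cont h2).comp
    ((continuous_const.add continuous_cos).logb fun θ => by
      have := neg_one_le_cos θ
      simp only [Pi.add_apply]
      linarith)
  have sg : ∀ i : ℕ, 0 < (-1) ^ i * hG G (ex (i * (π / k))) := fun i => h4 _ i (by
    rw [← cos_nat_mul_pi]
    congr 1
    field_simp)
  have st : ∀ i j : ℕ, i ≤ j → (i : ℝ) * (π / k) ≤ j * (π / k) := fun i j h => by gcongr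
  have : ∀ i : ℕ, ∃ θ ∈ Set.Ioo ((i : ℝ) * (π / k)) ((i + 1 : ℕ) * (π / k)),
      (-1) ^ i * hG G (ex θ) = 0 := fun i =>
    intermediate_value_Ioo' (st i _ (Nat.le_succ i)) (continuous_const.mul c).continuousOn
      ⟨by
        have := sg (i + 1)
        rw [pow_succ] at this
        show (-1) ^ i * hG G (ex ((i + 1 : ℕ) * (π / k))) < 0
        linarith, sg i⟩
  choose θ a b using this
  have mem : ∀ i < k, θ i ∈ Set.Icc 0 π := fun i h =>
    ⟨le_trans (by positivity) (a i).1.le, (a i).2.le.trans ((st _ k h).trans_eq (by field_simp))⟩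
  have mono : StrictMono θ := strictMono_nat_of_lt_succ fun i => (a i).2.trans (a (i + 1)).1
  refine ⟨(range k).image fun i => ex (θ i), ?_, fun t ht => ?_⟩
  · rw [card_image_of_injOn fun i hi j hj e => mono.injective (injOn_cos (mem i (mem_range.1 hi))
      (mem j (mem_range.1 hj)) ?_), card_range]
    have p : ∀ x, 0 < 5 + cos x := fun x => by linarith [neg_one_le_cos x]
    exact add_left_cancel (logb_injOn_pos (by norm_num) (p _) (p _) e)
  · obtain ⟨i, -, rfl⟩ := mem_image.1 ht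
    exact (mul_eq_zero.1 (b i)).resolve_left (pow_ne_zero _ (by norm_num))

theorem up {n : ℕ} {G : SimpleGraph (Fin n)} (hc : G.Connected) (ht : G ≠ ⊤) :
    {α | hG G α = 0}.Finite ∧ ({α | hG G α = 0}.ncard : ℝ) ≤ 7 * log G.diam := by
  have b := card_zeros_diam hc ht ((ne_top_iff hc).1 ht) (dist_diam hc)
  have f : {α | hG G α = 0}.Finite := by
    by_contra h
    obtain ⟨s, h1, h2⟩ := Set.Infinite.exists_subset_card_eq h (⌈7 * log G.diam⌉₊ + 1)
    have := b s fun t u => h1 u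
    rw [h2] at this
    have := Nat.le_ceil (7 * log G.diam)
    push_cast at *
    linarith
  exact ⟨f, Set.ncard_eq_toFinset_card _ f ▸ b f.toFinset fun t u => by simpa using u⟩

theorem result :
    (∀ (n : ℕ) (G : SimpleGraph (Fin n)), G.Connected → G ≠ ⊤ → {α : ℝ | hG G α = 0}.Finite ∧
      ({α : ℝ | hG G α = 0}.ncard : ℝ) ≤ 7 * Real.log G.diam) ∧
    ∀ D n : ℕ, 2 ≤ D → D ^ 12 ≤ n → ∃ G : SimpleGraph (Fin n), G.Connected ∧ G.diam = D ∧
      Real.log D / 11 - 2 ≤ ({α : ℝ | hG G α = 0}.ncard : ℝ) := by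
  refine ⟨fun n G => up, fun D n hD hn => ?_⟩
  by_cases h : log D / 11 ≤ 2
  · obtain ⟨G, g1, g2, -⟩ := build (n := n) (R := D) (I := Empty) hD (fun _ => 0) (fun _ => 0)
      (fun _ => 0) (by simp) (by simp) (by simp)
      (((pow_one D).symm.trans_lt (Nat.pow_lt_pow_right hD (by norm_num))).trans_le hn)
    exact ⟨G, g1, g2, le_trans (by linarith) (Nat.cast_nonneg _)⟩
  obtain ⟨k, hk⟩ : ∃ k, ⌈log D / 11⌉₊ = k + 2 :=
    ⟨⌈log D / 11⌉₊ - 2, by have := Nat.lt_ceil.2 (show ((2 : ℕ) : ℝ) < _ from not_le.1 h); omega⟩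
  have a1 := Nat.le_ceil (log D / 11)
  have a2 := Nat.ceil_lt_add_one (show 0 ≤ log D / 11 by linarith [not_le.1 h])
  rw [hk] at a1 a2
  push_cast at a1 a2
  have a3 : (36 : ℝ) ^ 3 ≤ exp 11 := by
    rw [show (11 : ℝ) = (11 : ℕ) by norm_num, ← exp_one_pow]
    exact le_trans (by norm_num) (pow_le_pow_left₀ (by norm_num) exp_one_gt_d9.le 11)
  obtain ⟨G, g1, g2, g3⟩ := signs (k := k) (by
    have : ((36 : ℝ) ^ 3) ^ (k + 1) ≤ D := by
      refine (pow_le_pow_left₀ (by positivity) a3 _).trans ?_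
      rw [← exp_nat_mul, ← le_log_iff_exp_le (by positivity)]
      push_cast
      linarith
    rw [← pow_mul] at this
    exact_mod_cast this) hn
  obtain ⟨s, h4, h5⟩ := zeros g1 g3
  refine ⟨G, g1, g2, le_trans (b := (k : ℝ)) (by linarith) (Nat.cast_le.2 ?_)⟩
  rw [← h4, ← Set.ncard_coe_finset]
  exact Set.ncard_le_ncard h5 (up g1 ((ne_top_iff g1).2 (g2 ▸ hD))).1

end Pool.Agent.Results.MP_dd6dde_co.LogZeros
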